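import Pool.Agent.W506.F2

/-!
Every bounded complex of coherent sheaves on projective space is, up to a shift, the derived
direct image of a vector bundle on a product with projective spaces; projective lines suffice.
-/

universe u

open CategoryTheory Limits AlgebraicGeometry

namespace Pool.Agent.Results.MP_ec58e7_ag.Pushforward

open Pool.Agent.W506

/-- Let `K` be a field, `m` a natural number and `C` a bounded complex of coherent sheaves on
`P^m` over `K`. Then there are `t ≥ 1` and `n₁, ..., n_t` (all equal to `1`), a vector bundle `E` on
`P^m × P^{n₁} × ... × P^{n_t}` and an integer `s` such that `(R π_* E)[s]` is isomorphic to `C` in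
the derived category, where `π` is the projection to `P^m`. -/
theorem result (K : Type u) [Field K] (m : ℕ) (C : CochainComplex (PP K m).Modules ℤ) (a b : ℤ)
    (ha : ∀ i, i < a → IsZero (C.X i)) (hb : ∀ i, b < i → IsZero (C.X i))
    (hC : ∀ i, IsCoh (C.X i)) :
    ∃ l : List ℕ, l ≠ [] ∧ (∀ n ∈ l, n = 1) ∧ IsPushforwardOver K m l C :=
  Pool.Agent.W506.main K m C a b ha hb hC

end Pool.Agent.Results.MP_ec58e7_ag.Pushforward
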